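import Mathlib

/-!
# MP_38c1f8_pr, Q1: a negative answer

A 4-regular graph quasi-isometric to `ℤ²` without fortress on which 2-neighbour bootstrap
percolation from a Bernoulli configuration of small density almost surely does not invade.
-/

set_option autoImplicit false

open MeasureTheory Set

namespace Pool.Agent.Results.MP_38c1f8_pr.OrientedCells

/-! ### definitions used in the statement -/

/-- The square lattice `ℤ²` as a graph. -/
def squareLattice : SimpleGraph (ℤ × ℤ) where
  Adj x y := |x.1 - y.1| + |x.2 - y.2| = 1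
  symm := ⟨fun x y h => by
    rw [abs_sub_comm y.1 x.1, abs_sub_comm y.2 x.2]; exact h⟩
  loopless := ⟨fun x h => by simp at h⟩

/-- Two graphs, with their graph metrics, are quasi-isometric. -/
def QuasiIsometric {V W : Type} (G : SimpleGraph V) (H : SimpleGraph W) : Prop :=
  ∃ (f : V → W) (A B : ℝ), 1 ≤ A ∧ 0 ≤ B ∧
    (∀ u v : V, (G.dist u v : ℝ) / A - B ≤ H.dist (f u) (f v) ∧
      (H.dist (f u) (f v) : ℝ) ≤ A * G.dist u v + B) ∧
    ∀ w : W, ∃ v : V, (H.dist w (f v) : ℝ) ≤ B

open Classical in
/-- The 2-neighbour contamination map: a vertex is infected (`true`) after the step if it was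
infected before or has at least two infected neighbours. -/
noncomputable def contaminate {V : Type} (G : SimpleGraph V) (c : V → Bool) : V → Bool :=
  fun v => decide (c v = true ∨ 2 ≤ {w | G.Adj v w ∧ c w = true}.ncard)

/-- The invasion set: every vertex is infected after finitely many steps. -/
def invasion {V : Type} (G : SimpleGraph V) : Set (V → Bool) :=
  {c | ∀ v, ∃ n : ℕ, (contaminate G)^[n] c v = true}

/-- The Bernoulli law of one vertex: `true` with probability `p`, `false` otherwise. -/
noncomputable def bernoulli (p : ℝ) : Measure Bool :=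
  ENNReal.ofReal p • Measure.dirac true + ENNReal.ofReal (1 - p) • Measure.dirac false

/-- The Bernoulli measure on `{0,1}^V`: the vertices are infected independently with
probability `p`. -/
noncomputable def law (V : Type) (p : ℝ) : Measure (V → Bool) :=
  Measure.infinitePi fun _ => bernoulli p

/-- A fortress: a finite nonempty set of vertices each of which has at most one neighbour outside
the set. -/
def IsFortress {V : Type} (G : SimpleGraph V) (S : Set V) : Prop :=
  S.Finite ∧ S.Nonempty ∧ ∀ v ∈ S, {w | G.Adj v w ∧ w ∉ S}.ncard ≤ 1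

/-! ### the graph -/

/-- The vertices: `(z, s, k)` is the vertex number `k` of side `s` in the cell `z`. -/
abbrev Vt : Type := (ℤ × ℤ) × Bool × Bool

/-- the edges from side `false` to side `true`: all edges inside a cell, and the edges to the
vertex with the same number in the cells to the north and to the east -/
def rel (a b : Vt) : Prop :=
  a.2.1 = false ∧ b.2.1 = true ∧
    (b.1 = a.1 ∨ (b.2.2 = a.2.2 ∧ (b.1 = a.1 + (0, 1) ∨ b.1 = a.1 + (1, 0))))

/-- the graph -/
def GG : SimpleGraph Vt where
  Adj a b := rel a b ∨ rel b a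
  symm := ⟨fun _ _ h => h.symm⟩
  loopless := ⟨fun a h => by
    rcases h with ⟨h1, h2, _⟩ | ⟨h1, h2, _⟩ <;> rw [h1] at h2 <;> exact absurd h2 (by simp)⟩

lemma nbr_false (z : ℤ × ℤ) (k : Bool) : GG.neighborSet (z, false, k) =
    {(z, true, false), (z, true, true), (z + (0, 1), true, k), (z + (1, 0), true, k)} := by
  ext ⟨w, s, l⟩
  simp only [SimpleGraph.mem_neighborSet, GG, rel, Set.mem_insert_iff, Set.mem_singleton_iff,
    Prod.mk.injEq]
  cases s <;> cases l <;> cases k <;> simp

lemma nbr_true (z : ℤ × ℤ) (k : Bool) : GG.neighborSet (z, true, k) =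
    {(z, false, false), (z, false, true), (z - (0, 1), false, k), (z - (1, 0), false, k)} := by
  ext ⟨w, s, l⟩
  simp only [SimpleGraph.mem_neighborSet, GG, rel, Set.mem_insert_iff, Set.mem_singleton_iff,
    Prod.mk.injEq, eq_sub_iff_add_eq]
  have e1 : (z = w) ↔ (w = z) := eq_comm
  have e2 : (z = w + (0, 1)) ↔ (w + (0, 1) = z) := eq_comm
  have e3 : (z = w + (1, 0)) ↔ (w + (1, 0) = z) := eq_comm
  cases s <;> cases l <;> cases k <;> simp [e1, e2, e3]

lemma shift_ne (z : ℤ × ℤ) : z + (0, 1) ≠ z ∧ z + (1, 0) ≠ z ∧ z + (0, 1) ≠ z + (1, 0) ∧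
    z - (0, 1) ≠ z ∧ z - (1, 0) ≠ z ∧ z - (0, 1) ≠ z - (1, 0) := by
  obtain ⟨a, b⟩ := z
  simp only [Prod.mk_add_mk, Prod.mk_sub_mk, ne_eq, Prod.mk.injEq, not_and]
  refine ⟨?_, ?_, ?_, ?_, ?_, ?_⟩ <;> intros <;> omega

lemma card_nbr (v : Vt) : (GG.neighborSet v).ncard = 4 := by
  obtain ⟨z, s, k⟩ := v
  obtain ⟨h1, h2, h3, h4, h5, h6⟩ := shift_ne z
  cases s
  · rw [nbr_false]
    rw [Set.ncard_insert_of_notMem, Set.ncard_insert_of_notMem, Set.ncard_pair]
    · intro h; exact h3 (Prod.mk.injEq _ _ _ _ ▸ h).1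
    · simp only [Set.mem_insert_iff, Set.mem_singleton_iff, Prod.mk.injEq, not_or]
      exact ⟨fun h => h1 h.1.symm, fun h => h2 h.1.symm⟩
    · simp only [Set.mem_insert_iff, Set.mem_singleton_iff, Prod.mk.injEq, not_or]
      exact ⟨by simp, fun h => h1 h.1.symm, fun h => h2 h.1.symm⟩
  · rw [nbr_true]
    rw [Set.ncard_insert_of_notMem, Set.ncard_insert_of_notMem, Set.ncard_pair]
    · intro h; exact h6 (Prod.mk.injEq _ _ _ _ ▸ h).1
    · simp only [Set.mem_insert_iff, Set.mem_singleton_iff, Prod.mk.injEq, not_or]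
      exact ⟨fun h => h4 h.1.symm, fun h => h5 h.1.symm⟩
    · simp only [Set.mem_insert_iff, Set.mem_singleton_iff, Prod.mk.injEq, not_or]
      exact ⟨by simp, fun h => h4 h.1.symm, fun h => h5 h.1.symm⟩

/-! ### distances -/

/-- there is a walk of length at most `n` -/
def Near {V : Type} (G : SimpleGraph V) (u v : V) (n : ℕ) : Prop :=
  ∃ w : G.Walk u v, w.length ≤ n

lemma Near.trans {V : Type} {G : SimpleGraph V} {u v w : V} {m n : ℕ} (h1 : Near G u v m)
    (h2 : Near G v w n) : Near G u w (m + n) := by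
  obtain ⟨p, hp⟩ := h1
  obtain ⟨q, hq⟩ := h2
  exact ⟨p.append q, by rw [SimpleGraph.Walk.length_append]; omega⟩

lemma Near.symm {V : Type} {G : SimpleGraph V} {u v : V} {n : ℕ} (h : Near G u v n) :
    Near G v u n := by
  obtain ⟨p, hp⟩ := h
  exact ⟨p.reverse, by rw [SimpleGraph.Walk.length_reverse]; exact hp⟩

lemma Near.mono {V : Type} {G : SimpleGraph V} {u v : V} {m n : ℕ} (h : Near G u v m)
    (hmn : m ≤ n) : Near G u v n := by
  obtain ⟨p, hp⟩ := h
  exact ⟨p, hp.trans hmn⟩

lemma near_refl {V : Type} {G : SimpleGraph V} (u : V) : Near G u u 0 := ⟨.nil, le_rfl⟩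

lemma near_adj {V : Type} {G : SimpleGraph V} {u v : V} (h : G.Adj u v) : Near G u v 1 :=
  ⟨.cons h .nil, le_rfl⟩

/-- the `ℓ¹` distance -/
def l1 (x y : ℤ × ℤ) : ℕ := (x.1 - y.1).natAbs + (x.2 - y.2).natAbs

/-- Chain along two directions: if moving by one in each coordinate direction costs `m`, then the
cost between any two points is at most `m` times the `ℓ¹` distance. -/
lemma near_of_steps {V : Type} {G : SimpleGraph V} (g : ℤ × ℤ → V) (m : ℕ)
    (h1 : ∀ z, Near G (g z) (g (z + (1, 0))) m) (h2 : ∀ z, Near G (g z) (g (z + (0, 1))) m)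
    (x y : ℤ × ℤ) : Near G (g x) (g y) (m * l1 x y) := by
  have hr : ∀ (n : ℕ) (z : ℤ × ℤ), Near G (g z) (g (z + ((n : ℤ), 0))) (m * n) := by
    intro n
    induction n with
    | zero =>
      intro z
      have e : z + (((0 : ℕ) : ℤ), 0) = z := by ext <;> simp
      rw [e]
      exact near_refl (g z)
    | succ n ih =>
      intro z
      have h := (ih z).trans (h1 (z + ((n : ℤ), 0)))
      have e : z + ((n : ℤ), 0) + (1, 0) = z + (((n + 1 : ℕ) : ℤ), 0) := by
        ext <;> simp [add_assoc]
      rw [e] at h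
      exact h.mono (by ring_nf; rfl)
  have hu : ∀ (n : ℕ) (z : ℤ × ℤ), Near G (g z) (g (z + (0, (n : ℤ)))) (m * n) := by
    intro n
    induction n with
    | zero =>
      intro z
      have e : z + (0, ((0 : ℕ) : ℤ)) = z := by ext <;> simp
      rw [e]
      exact near_refl (g z)
    | succ n ih =>
      intro z
      have h := (ih z).trans (h2 (z + (0, (n : ℤ))))
      have e : z + (0, (n : ℤ)) + (0, 1) = z + (0, ((n + 1 : ℕ) : ℤ)) := by
        ext <;> simp [add_assoc]
      rw [e] at h
      exact h.mono (by ring_nf; rfl)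
  have hr' : ∀ (a b c : ℤ), Near G (g (a, c)) (g (b, c)) (m * (a - b).natAbs) := by
    intro a b c
    rcases le_total a b with h | h
    · have := hr (b - a).toNat (a, c)
      have e : (a, c) + (((b - a).toNat : ℤ), 0) = ((b, c) : ℤ × ℤ) := by
        ext
        · simp only [Prod.mk_add_mk]; omega
        · simp
      rw [e] at this
      exact this.mono (Nat.mul_le_mul_left m (by omega))
    · have := (hr (a - b).toNat (b, c)).symm
      have e : (b, c) + (((a - b).toNat : ℤ), 0) = ((a, c) : ℤ × ℤ) := by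
        ext
        · simp only [Prod.mk_add_mk]; omega
        · simp
      rw [e] at this
      exact this.mono (Nat.mul_le_mul_left m (by omega))
  have hu' : ∀ (a b c : ℤ), Near G (g (c, a)) (g (c, b)) (m * (a - b).natAbs) := by
    intro a b c
    rcases le_total a b with h | h
    · have := hu (b - a).toNat (c, a)
      have e : (c, a) + (0, ((b - a).toNat : ℤ)) = ((c, b) : ℤ × ℤ) := by
        ext
        · simp
        · simp only [Prod.mk_add_mk]; omega
      rw [e] at this
      exact this.mono (Nat.mul_le_mul_left m (by omega))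
    · have := (hu (a - b).toNat (c, b)).symm
      have e : (c, b) + (0, ((a - b).toNat : ℤ)) = ((c, a) : ℤ × ℤ) := by
        ext
        · simp
        · simp only [Prod.mk_add_mk]; omega
      rw [e] at this
      exact this.mono (Nat.mul_le_mul_left m (by omega))
  obtain ⟨a, b⟩ := x
  obtain ⟨c, d⟩ := y
  have := (hr' a c b).trans (hu' b d c)
  refine this.mono ?_
  unfold l1
  rw [mul_add]

lemma l1_walk_le {u v : ℤ × ℤ} (w : squareLattice.Walk u v) : l1 u v ≤ w.length := by
  induction w with
  | nil => simp [l1]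
  | cons h p ih =>
    rename_i a b c
    have h' : |a.1 - b.1| + |a.2 - b.2| = 1 := h
    rw [Int.abs_eq_natAbs, Int.abs_eq_natAbs] at h'
    rw [SimpleGraph.Walk.length_cons]
    unfold l1 at *
    omega

lemma lattice_near (u v : ℤ × ℤ) : Near squareLattice u v (l1 u v) := by
  have := near_of_steps (G := squareLattice) (fun z => z) 1
    (fun z => near_adj (by
      show |z.1 - (z + (1, 0)).1| + |z.2 - (z + (1, 0)).2| = 1
      simp))
    (fun z => near_adj (by
      show |z.1 - (z + (0, 1)).1| + |z.2 - (z + (0, 1)).2| = 1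
      simp)) u v
  simpa using this

lemma lattice_dist (u v : ℤ × ℤ) : squareLattice.dist u v = l1 u v := by
  obtain ⟨w, hw⟩ := lattice_near u v
  apply le_antisymm
  · exact (SimpleGraph.dist_le w).trans hw
  · obtain ⟨q, hq⟩ := (w.reachable).exists_walk_length_eq_dist
    rw [← hq]
    exact l1_walk_le q

lemma cell_up (z : ℤ × ℤ) : Near GG (z, false, false) (z + (0, 1), false, false) 2 := by
  have h1 : GG.Adj (z, false, false) (z + (0, 1), true, false) := by
    left; exact ⟨rfl, rfl, Or.inr ⟨rfl, Or.inl rfl⟩⟩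
  have h2 : GG.Adj (z + (0, 1), true, false) (z + (0, 1), false, false) := by
    right; exact ⟨rfl, rfl, Or.inl rfl⟩
  exact (near_adj h1).trans (near_adj h2)

lemma cell_right (z : ℤ × ℤ) : Near GG (z, false, false) (z + (1, 0), false, false) 2 := by
  have h1 : GG.Adj (z, false, false) (z + (1, 0), true, false) := by
    left; exact ⟨rfl, rfl, Or.inr ⟨rfl, Or.inr rfl⟩⟩
  have h2 : GG.Adj (z + (1, 0), true, false) (z + (1, 0), false, false) := by
    right; exact ⟨rfl, rfl, Or.inl rfl⟩
  exact (near_adj h1).trans (near_adj h2)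

lemma cell_in (v : Vt) : Near GG v (v.1, false, false) 2 := by
  obtain ⟨z, s, k⟩ := v
  have h2 : GG.Adj (z, true, false) (z, false, false) := by
    right; exact ⟨rfl, rfl, Or.inl rfl⟩
  cases s
  · have h1 : GG.Adj (z, false, k) (z, true, false) := by
      left; exact ⟨rfl, rfl, Or.inl rfl⟩
    exact (near_adj h1).trans (near_adj h2)
  · have h1 : GG.Adj (z, true, k) (z, false, false) := by
      right; exact ⟨rfl, rfl, Or.inl rfl⟩
    exact (near_adj h1).mono (by norm_num)

lemma GG_near (u v : Vt) : Near GG u v (2 * l1 u.1 v.1 + 4) := by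
  have h := near_of_steps (G := GG) (fun z => (z, false, false)) 2 cell_right cell_up u.1 v.1
  have h2 := ((cell_in u).trans h).trans (cell_in v).symm
  exact h2.mono (by omega)

lemma GG_connected : GG.Connected := by
  have : Nonempty Vt := ⟨((0, 0), false, false)⟩
  exact SimpleGraph.Connected.mk fun u v => (GG_near u v).choose.reachable

lemma GG_adj_l1 {u v : Vt} (h : GG.Adj u v) : l1 u.1 v.1 ≤ 1 := by
  obtain ⟨⟨a, b⟩, s, k⟩ := u
  obtain ⟨⟨c, d⟩, t, l⟩ := v
  simp only [GG, rel, Prod.mk_add_mk, Prod.mk.injEq] at h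
  unfold l1
  simp only
  rcases h with ⟨_, _, h | ⟨_, h | h⟩⟩ | ⟨_, _, h | ⟨_, h | h⟩⟩ <;> omega

lemma GG_walk_l1 {u v : Vt} (w : GG.Walk u v) : l1 u.1 v.1 ≤ w.length := by
  induction w with
  | nil => simp [l1]
  | cons h p ih =>
    rename_i a b c
    have h' := GG_adj_l1 h
    rw [SimpleGraph.Walk.length_cons]
    unfold l1 at *
    omega

lemma GG_quasi : QuasiIsometric GG squareLattice := by
  refine ⟨fun v => v.1, 2, 2, by norm_num, by norm_num, ?_, ?_⟩
  · intro u v
    rw [lattice_dist]
    obtain ⟨w, hw⟩ := GG_near u v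
    have h1 : GG.dist u v ≤ 2 * l1 u.1 v.1 + 4 := (SimpleGraph.dist_le w).trans hw
    obtain ⟨q, hq⟩ := (w.reachable).exists_walk_length_eq_dist
    have h2 : l1 u.1 v.1 ≤ GG.dist u v := by rw [← hq]; exact GG_walk_l1 q
    have h1' : (GG.dist u v : ℝ) ≤ 2 * l1 u.1 v.1 + 4 := by exact_mod_cast h1
    have h2' : (l1 u.1 v.1 : ℝ) ≤ GG.dist u v := by exact_mod_cast h2
    have h3 : (0 : ℝ) ≤ GG.dist u v := Nat.cast_nonneg _
    constructor <;> linarith
  · intro w
    exact ⟨(w, false, false), by simp⟩

/-! ### no fortress -/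

lemma no_fortress : ¬ ∃ S : Set Vt, IsFortress GG S := by
  rintro ⟨S, hfin, hne, hS⟩
  have fin_nbr : ∀ v : Vt, {w | GG.Adj v w ∧ w ∉ S}.Finite := by
    intro v
    have : (GG.neighborSet v).Finite := Set.finite_of_ncard_ne_zero (by rw [card_nbr]; norm_num)
    exact this.subset fun w hw => hw.1
  have two : ∀ (v a b : Vt), v ∈ S → GG.Adj v a → GG.Adj v b → a ≠ b → a ∉ S → b ∉ S → False := by
    intro v a b hv ha hb hab haS hbS
    have h1 := hS v hv
    have h2 : ({a, b} : Set Vt) ⊆ {w | GG.Adj v w ∧ w ∉ S} := by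
      intro w hw
      rcases hw with rfl | rfl
      · exact ⟨ha, haS⟩
      · exact ⟨hb, hbS⟩
    have h3 := Set.ncard_le_ncard h2 (fin_nbr v)
    rw [Set.ncard_pair hab] at h3
    omega
  obtain ⟨v, hv, hmax⟩ := Set.exists_max_image S (fun v : Vt => v.1.1 + v.1.2) hfin hne
  have key : ∀ k : Bool, (v.1, false, k) ∉ S := by
    intro k hk
    have hh : ∀ w : Vt, w.1.1 + w.1.2 = v.1.1 + v.1.2 + 1 → w ∉ S := by
      intro w hw hwS
      have := hmax w hwS
      omega
    refine two _ (v.1 + (0, 1), true, k) (v.1 + (1, 0), true, k) hk ?_ ?_ ?_ (hh _ ?_) (hh _ ?_)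
    · left; exact ⟨rfl, rfl, Or.inr ⟨rfl, Or.inl rfl⟩⟩
    · left; exact ⟨rfl, rfl, Or.inr ⟨rfl, Or.inr rfl⟩⟩
    · intro h
      exact (shift_ne v.1).2.2.1 (Prod.mk.injEq _ _ _ _ ▸ h).1
    · simp only [Prod.fst_add, Prod.snd_add]; omega
    · simp only [Prod.fst_add, Prod.snd_add]; omega
  obtain ⟨z, s, k⟩ := v
  cases s
  · exact key k hv
  · refine two _ (z, false, false) (z, false, true) hv ?_ ?_ ?_ (key false) (key true)
    · right; exact ⟨rfl, rfl, Or.inl rfl⟩
    · right; exact ⟨rfl, rfl, Or.inl rfl⟩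
    · simp

/-! ### stable paths of healthy cells -/

/-- a bi-infinite north-east path of cells -/
def NEPath (c : ℤ → ℤ × ℤ) : Prop := ∀ t, c (t + 1) = c t + (0, 1) ∨ c (t + 1) = c t + (1, 0)

lemma stable {c : ℤ → ℤ × ℤ} (hc : NEPath c) {ω : Vt → Bool}
    (hω : ∀ t s k, ω (c t, s, k) = false) (n : ℕ) :
    ∀ t s k, (contaminate GG)^[n] ω (c t, s, k) = false := by
  induction n with
  | zero => exact hω
  | succ n ih =>
    intro t s k
    rw [Function.iterate_succ', Function.comp]
    set η := (contaminate GG)^[n] ω with hη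
    unfold contaminate
    simp only [decide_eq_false_iff_not, not_or, not_le]
    refine ⟨by rw [ih t s k]; simp, ?_⟩
    suffices h : ∃ a : Vt, {w | GG.Adj (c t, s, k) w ∧ η w = true} ⊆ {a} by
      obtain ⟨a, ha⟩ := h
      have := Set.ncard_le_ncard ha (Set.finite_singleton a)
      rw [Set.ncard_singleton] at this
      omega
    cases s
    · rcases hc t with h | h
      · refine ⟨(c t + (1, 0), true, k), ?_⟩
        rintro w ⟨hw, hw'⟩
        have hw2 : w ∈ GG.neighborSet (c t, false, k) := hw
        rw [nbr_false] at hw2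
        simp only [Set.mem_insert_iff, Set.mem_singleton_iff] at hw2 ⊢
        rcases hw2 with rfl | rfl | rfl | rfl
        · rw [ih] at hw'; simp at hw'
        · rw [ih] at hw'; simp at hw'
        · rw [← h, ih] at hw'; simp at hw'
        · rfl
      · refine ⟨(c t + (0, 1), true, k), ?_⟩
        rintro w ⟨hw, hw'⟩
        have hw2 : w ∈ GG.neighborSet (c t, false, k) := hw
        rw [nbr_false] at hw2
        simp only [Set.mem_insert_iff, Set.mem_singleton_iff] at hw2 ⊢
        rcases hw2 with rfl | rfl | rfl | rfl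
        · rw [ih] at hw'; simp at hw'
        · rw [ih] at hw'; simp at hw'
        · rfl
        · rw [← h, ih] at hw'; simp at hw'
    · have e : t - 1 + 1 = t := by ring
      rcases hc (t - 1) with h | h
      · rw [e] at h
        have h' : c t - (0, 1) = c (t - 1) := by rw [h]; simp
        refine ⟨(c t - (1, 0), false, k), ?_⟩
        rintro w ⟨hw, hw'⟩
        have hw2 : w ∈ GG.neighborSet (c t, true, k) := hw
        rw [nbr_true] at hw2
        simp only [Set.mem_insert_iff, Set.mem_singleton_iff] at hw2 ⊢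
        rcases hw2 with rfl | rfl | rfl | rfl
        · rw [ih] at hw'; simp at hw'
        · rw [ih] at hw'; simp at hw'
        · rw [h', ih] at hw'; simp at hw'
        · rfl
      · rw [e] at h
        have h' : c t - (1, 0) = c (t - 1) := by rw [h]; simp
        refine ⟨(c t - (0, 1), false, k), ?_⟩
        rintro w ⟨hw, hw'⟩
        have hw2 : w ∈ GG.neighborSet (c t, true, k) := hw
        rw [nbr_true] at hw2
        simp only [Set.mem_insert_iff, Set.mem_singleton_iff] at hw2 ⊢
        rcases hw2 with rfl | rfl | rfl | rfl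
        · rw [ih] at hw'; simp at hw'
        · rw [ih] at hw'; simp at hw'
        · rfl
        · rw [h', ih] at hw'; simp at hw'

/-! ### reachable cells -/

/-- the letters: `inl b` is a free step, `inr a` is a step to a cell in which the vertex number `a`
is infected -/
abbrev Letter : Type := Bool ⊕ (Bool × Bool)

/-- the step of a letter -/
def stp : Letter → ℤ × ℤ
  | Sum.inl false => (0, 1)
  | Sum.inl true => (-1, 0)
  | Sum.inr _ => (1, -1)

/-- the cost of a letter -/
def ups : Letter → ℕ
  | Sum.inl _ => 0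
  | Sum.inr _ => 1

/-- the condition of a letter at the cell `z` -/
def cond (ω : Vt → Bool) (z : ℤ × ℤ) : Letter → Prop
  | Sum.inl _ => True
  | Sum.inr a => ω (z, a) = true

/-- The word `w`, read backwards from the cell `z`, leads to a cell of height at most zero. -/
def Valid (ω : Vt → Bool) : ℤ × ℤ → List Letter → Prop
  | z, [] => z.1 - z.2 ≤ 0
  | z, l :: w => cond ω z l ∧ Valid ω (z - stp l) w

/-- the infected vertices used by the word -/
def verts : ℤ × ℤ → List Letter → List Vt
  | _, [] => []
  | z, Sum.inl b :: w => verts (z - stp (Sum.inl b)) w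
  | z, Sum.inr a :: w => (z, a) :: verts (z - stp (Sum.inr a)) w

/-- the cell is reachable -/
def Reach (ω : Vt → Bool) (z : ℤ × ℤ) : Prop := ∃ w, Valid ω z w

lemma reach_base {ω : Vt → Bool} {z : ℤ × ℤ} (h : z.1 - z.2 ≤ 0) : Reach ω z := ⟨[], h⟩

lemma reach_step {ω : Vt → Bool} {z : ℤ × ℤ} (l : Letter) (h : cond ω z l)
    (h' : Reach ω (z - stp l)) : Reach ω z := by
  obtain ⟨w, hw⟩ := h'
  exact ⟨l :: w, h, hw⟩

/-- If some cell is not reachable then there is a bi-infinite north-east path of healthy cells. -/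
lemma exists_path {ω : Vt → Bool} {z₀ : ℤ × ℤ} (h0 : ¬ Reach ω z₀) :
    ∃ c : ℤ → ℤ × ℤ, NEPath c ∧ ∀ t s k, ω (c t, s, k) = false := by
  have hE : ∀ z : ℤ × ℤ, ¬ Reach ω z → ¬ Reach ω (z + (1, 0)) := by
    intro z hz h
    apply hz
    refine reach_step (Sum.inl true) trivial ?_
    have e : z - stp (Sum.inl true) = z + (1, 0) := by
      simp only [stp]; ext <;> simp
    rw [e]; exact h
  have hS : ∀ z : ℤ × ℤ, ¬ Reach ω z → ¬ Reach ω (z - (0, 1)) := by
    intro z hz h
    apply hz
    refine reach_step (Sum.inl false) trivial ?_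
    exact h
  have hne : ∀ t : ℤ, ∃ m : ℤ, ¬ Reach ω (m, t - m) := by
    have hup : ∀ (n : ℕ) (z : ℤ × ℤ), ¬ Reach ω z → ¬ Reach ω (z + ((n : ℤ), 0)) := by
      intro n
      induction n with
      | zero =>
        intro z hz
        have e : z + (((0 : ℕ) : ℤ), 0) = z := by ext <;> simp
        rw [e]; exact hz
      | succ n ih =>
        intro z hz
        have e : z + (((n + 1 : ℕ) : ℤ), 0) = (z + ((n : ℤ), 0)) + (1, 0) := by
          ext <;> simp [add_assoc]
        rw [e]
        exact hE _ (ih z hz)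
    have hdn : ∀ (n : ℕ) (z : ℤ × ℤ), ¬ Reach ω z → ¬ Reach ω (z - (0, (n : ℤ))) := by
      intro n
      induction n with
      | zero =>
        intro z hz
        have e : z - (0, ((0 : ℕ) : ℤ)) = z := by ext <;> simp
        rw [e]; exact hz
      | succ n ih =>
        intro z hz
        have e : z - (0, ((n + 1 : ℕ) : ℤ)) = (z - (0, (n : ℤ))) - (0, 1) := by
          ext
          · simp
          · simp only [Prod.snd_sub, Nat.cast_add, Nat.cast_one]; ring
        rw [e]
        exact hS _ (ih z hz)
    intro t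
    obtain ⟨a, b⟩ := z₀
    rcases le_total (a + b) t with h | h
    · refine ⟨a + (t - (a + b)), ?_⟩
      have := hup (t - (a + b)).toNat (a, b) h0
      have e : (a, b) + (((t - (a + b)).toNat : ℤ), 0) =
          ((a + (t - (a + b)), t - (a + (t - (a + b)))) : ℤ × ℤ) := by
        ext
        · simp only [Prod.mk_add_mk]; omega
        · simp only [Prod.mk_add_mk]; omega
      rw [e] at this
      exact this
    · refine ⟨a, ?_⟩
      have := hdn ((a + b) - t).toNat (a, b) h0
      have e : (a, b) - (0, (((a + b) - t).toNat : ℤ)) = ((a, t - a) : ℤ × ℤ) := by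
        ext
        · simp
        · simp only [Prod.mk_sub_mk]; omega
      rw [e] at this
      exact this
  have hex : ∀ t : ℤ, ∃ m : ℤ, ¬ Reach ω (m, t - m) ∧ ∀ m', ¬ Reach ω (m', t - m') → m ≤ m' := by
    intro t
    refine Int.exists_least_of_bdd ⟨t / 2, ?_⟩ (hne t)
    intro m hm
    by_contra hlt
    push Not at hlt
    exact hm (reach_base (by simp only; omega))
  choose m hm hmin using hex
  have h1 : ∀ t, m t ≤ m (t + 1) := by
    intro t
    apply hmin
    have := hS _ (hm (t + 1))
    have e : ((m (t + 1), t + 1 - m (t + 1)) : ℤ × ℤ) - (0, 1) = (m (t + 1), t - m (t + 1)) := by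
      ext
      · simp
      · simp only [Prod.mk_sub_mk]; omega
    rw [e] at this
    exact this
  have h2 : ∀ t, m (t + 1) ≤ m t + 1 := by
    intro t
    apply hmin
    have := hE _ (hm t)
    have e : ((m t, t - m t) : ℤ × ℤ) + (1, 0) = (m t + 1, t + 1 - (m t + 1)) := by
      ext
      · simp
      · simp only [Prod.mk_add_mk]; omega
    rw [e] at this
    exact this
  refine ⟨fun t => (m t, t - m t), ?_, ?_⟩
  · intro t
    have := h1 t
    have := h2 t
    rcases (by omega : m (t + 1) = m t ∨ m (t + 1) = m t + 1) with h | h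
    · left
      refine Prod.ext ?_ ?_
      · change m (t + 1) = m t + 0
        omega
      · change t + 1 - m (t + 1) = t - m t + 1
        omega
    · right
      refine Prod.ext ?_ ?_
      · change m (t + 1) = m t + 1
        omega
      · change t + 1 - m (t + 1) = t - m t + 0
        omega
  · intro t s k
    by_contra hcon
    have hcon' : ω ((m t, t - m t), s, k) = true := by simpa using hcon
    have hr : Reach ω (m t - 1, t - (m t - 1)) := by
      by_contra hh
      have := hmin t _ hh
      omega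
    apply hm t
    refine reach_step (Sum.inr (s, k)) hcon' ?_
    have e : ((m t, t - m t) : ℤ × ℤ) - stp (Sum.inr (s, k)) = (m t - 1, t - (m t - 1)) := by
      refine Prod.ext ?_ ?_
      · rfl
      · change t - m t - (-1) = t - (m t - 1)
        omega
    rw [e]
    exact hr

/-! ### counting -/

lemma verts_length (w : List Letter) : ∀ z, (verts z w).length = (w.map ups).sum := by
  induction w with
  | nil => intro z; rfl
  | cons l w ih =>
    intro z
    rcases l with b | a
    · simp [verts, ups, ih]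
    · simp only [verts, ups, List.length_cons, ih, List.map_cons, List.sum_cons]
      omega

lemma valid_height {ω : Vt → Bool} (w : List Letter) : ∀ z : ℤ × ℤ, Valid ω z w →
    z.1 - z.2 + w.length ≤ 3 * ((w.map ups).sum : ℤ) := by
  induction w with
  | nil => intro z h; simpa [Valid] using h
  | cons l w ih =>
    intro z h
    have h2 := ih _ h.2
    rcases l with b | a
    · cases b
      · simp only [stp, Prod.fst_sub, Prod.snd_sub] at h2
        simp only [List.length_cons, List.map_cons, List.sum_cons, ups]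
        omega
      · simp only [stp, Prod.fst_sub, Prod.snd_sub] at h2
        simp only [List.length_cons, List.map_cons, List.sum_cons, ups]
        omega
    · simp only [stp, Prod.fst_sub, Prod.snd_sub] at h2
      simp only [List.length_cons, List.map_cons, List.sum_cons, ups]
      omega

lemma verts_infected {ω : Vt → Bool} (w : List Letter) : ∀ z : ℤ × ℤ, Valid ω z w →
    ∀ x ∈ verts z w, ω x = true := by
  induction w with
  | nil => intro z _ x hx; simp [verts] at hx
  | cons l w ih =>
    intro z h x hx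
    rcases l with b | a
    · exact ih _ h.2 x hx
    · simp only [verts, List.mem_cons] at hx
      rcases hx with rfl | hx
      · exact h.1
      · exact ih _ h.2 x hx

/-- the cells of the used vertices have valid words not longer than the given word -/
lemma verts_valid {ω : Vt → Bool} (w : List Letter) : ∀ z : ℤ × ℤ, Valid ω z w →
    ∀ x ∈ verts z w, ∃ w', Valid ω x.1 w' ∧ w'.length ≤ w.length := by
  induction w with
  | nil => intro z _ x hx; simp [verts] at hx
  | cons l w ih =>
    intro z h x hx
    rcases l with b | a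
    · obtain ⟨w', h1, h2⟩ := ih _ h.2 x hx
      exact ⟨w', h1, by rw [List.length_cons]; omega⟩
    · simp only [verts, List.mem_cons] at hx
      rcases hx with rfl | hx
      · exact ⟨_, h, le_rfl⟩
      · obtain ⟨w', h1, h2⟩ := ih _ h.2 x hx
        exact ⟨w', h1, by rw [List.length_cons]; omega⟩

lemma verts_nodup {ω : Vt → Bool} (w : List Letter) : ∀ z : ℤ × ℤ, Valid ω z w →
    (∀ w', Valid ω z w' → w.length ≤ w'.length) → (verts z w).Nodup := by
  induction w with
  | nil => intro z _ _; exact List.nodup_nil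
  | cons l w ih =>
    intro z h hmin
    have hmin' : ∀ w', Valid ω (z - stp l) w' → w.length ≤ w'.length := by
      intro w' hw'
      have := hmin (l :: w') ⟨h.1, hw'⟩
      simpa using this
    have h2 := ih _ h.2 hmin'
    rcases l with b | a
    · exact h2
    · simp only [verts, List.nodup_cons]
      refine ⟨?_, h2⟩
      intro hmem
      obtain ⟨w', h3, h4⟩ := verts_valid w _ h.2 _ hmem
      have := hmin w' h3
      rw [List.length_cons] at this
      omega

/-- a reachable cell has a valid word without repetitions -/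
lemma exists_good_word {ω : Vt → Bool} {z : ℤ × ℤ} (h : Reach ω z) :
    ∃ w, Valid ω z w ∧ (verts z w).Nodup := by
  classical
  have hex : ∃ n, ∃ w, Valid ω z w ∧ w.length = n := by
    obtain ⟨w, hw⟩ := h
    exact ⟨_, w, hw, rfl⟩
  obtain ⟨w, hw, hl⟩ := Nat.find_spec hex
  refine ⟨w, hw, verts_nodup w z hw ?_⟩
  intro w' hw'
  rw [hl]
  exact Nat.find_min' hex ⟨w', hw', rfl⟩

/-! ### probability -/

lemma bernoulli_prob {p : ℝ} (h0 : 0 ≤ p) (h1 : p ≤ 1) : IsProbabilityMeasure (bernoulli p) := by
  constructor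
  unfold bernoulli
  simp only [Measure.coe_add, Measure.coe_smul, Pi.add_apply, Pi.smul_apply, measure_univ,
    smul_eq_mul, mul_one]
  rw [← ENNReal.ofReal_add h0 (by linarith)]
  simp

lemma bernoulli_true (p : ℝ) : bernoulli p {true} = ENNReal.ofReal p := by
  unfold bernoulli
  simp

/-- the probability that all vertices of a finite set are infected -/
lemma law_all {V : Type} {p : ℝ} (h0 : 0 ≤ p) (h1 : p ≤ 1) (A : Finset V) :
    law V p {ω | ∀ x ∈ A, ω x = true} = ENNReal.ofReal p ^ A.card := by
  have := bernoulli_prob h0 h1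
  have e : {ω : V → Bool | ∀ x ∈ A, ω x = true} = Set.pi (A : Set V) (fun _ => {true}) := by
    ext ω
    simp [Set.mem_pi]
  rw [e]
  unfold law
  rw [Measure.infinitePi_pi (fun _ : V => bernoulli p) (fun _ _ => measurableSet_singleton _)]
  simp [bernoulli_true]

lemma word_bound {p : ℝ} (h0 : 0 ≤ p) (h1 : p ≤ 1 / 1728) (h : ℕ) (w : List Letter) :
    law Vt p {ω | Valid ω ((h : ℤ), 0) w ∧ (verts ((h : ℤ), 0) w).Nodup} ≤
      (ENNReal.ofReal (1 / 12)) ^ (w.length + h) := by
  classical
  by_cases hn : (verts ((h : ℤ), 0) w).Nodup ∧ h + w.length ≤ 3 * (w.map ups).sum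
  · refine (measure_mono (t := {ω | ∀ x ∈ (verts ((h : ℤ), 0) w).toFinset, ω x = true}) ?_).trans ?_
    · intro ω hω x hx
      exact verts_infected w _ hω.1 x (List.mem_toFinset.1 hx)
    · rw [law_all h0 (by linarith), List.toFinset_card_of_nodup hn.1, verts_length]
      have h2 : ENNReal.ofReal p ≤ ENNReal.ofReal (1 / 12) ^ 3 := by
        rw [← ENNReal.ofReal_pow (by norm_num)]
        apply ENNReal.ofReal_le_ofReal
        norm_num at h1 ⊢
        linarith
      calc ENNReal.ofReal p ^ (w.map ups).sum
          ≤ (ENNReal.ofReal (1 / 12) ^ 3) ^ (w.map ups).sum := pow_le_pow_left' h2 _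
        _ = ENNReal.ofReal (1 / 12) ^ (3 * (w.map ups).sum) := by rw [pow_mul]
        _ ≤ ENNReal.ofReal (1 / 12) ^ (w.length + h) := by
          apply pow_le_pow_right_of_le_one'
          · rw [← ENNReal.ofReal_one]
            exact ENNReal.ofReal_le_ofReal (by norm_num)
          · omega
  · have e : {ω | Valid ω ((h : ℤ), 0) w ∧ (verts ((h : ℤ), 0) w).Nodup} = ∅ := by
      rw [Set.eq_empty_iff_forall_notMem]
      rintro ω ⟨h3, h4⟩
      apply hn
      refine ⟨h4, ?_⟩
      have := valid_height w _ h3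
      simp only [sub_zero] at this
      omega
    rw [e, measure_empty]
    exact zero_le

lemma card_letter : Fintype.card Letter = 6 := by decide

lemma reach_bound {p : ℝ} (h0 : 0 ≤ p) (h1 : p ≤ 1 / 1728) (h : ℕ) :
    law Vt p {ω | Reach ω ((h : ℤ), 0)} ≤ 2 * ENNReal.ofReal (1 / 12) ^ h := by
  have hsub : {ω : Vt → Bool | Reach ω ((h : ℤ), 0)} ⊆ ⋃ n : ℕ, ⋃ f : Fin n → Letter,
      {ω | Valid ω ((h : ℤ), 0) (List.ofFn f) ∧ (verts ((h : ℤ), 0) (List.ofFn f)).Nodup} := by
    intro ω hω
    obtain ⟨w, h2, h3⟩ := exists_good_word hω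
    simp only [Set.mem_iUnion, Set.mem_ofPred_eq]
    refine ⟨w.length, w.get, ?_⟩
    rw [List.ofFn_get]
    exact ⟨h2, h3⟩
  refine (measure_mono hsub).trans ((measure_iUnion_le _).trans ?_)
  have hn : ∀ n : ℕ, law Vt p (⋃ f : Fin n → Letter,
      {ω | Valid ω ((h : ℤ), 0) (List.ofFn f) ∧ (verts ((h : ℤ), 0) (List.ofFn f)).Nodup}) ≤
      ENNReal.ofReal (1 / 12) ^ h * (2⁻¹ : ENNReal) ^ n := by
    intro n
    refine (measure_iUnion_fintype_le _ _).trans ?_
    refine (Finset.sum_le_sum fun f _ => word_bound h0 h1 h (List.ofFn f)).trans ?_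
    simp only [List.length_ofFn, Finset.sum_const, Finset.card_univ, Fintype.card_fun,
      card_letter, Fintype.card_fin, nsmul_eq_mul]
    have e : (2⁻¹ : ENNReal) = 6 * ENNReal.ofReal (1 / 12) := by
      rw [show (6 : ENNReal) = ENNReal.ofReal 6 by simp, ← ENNReal.ofReal_mul (by norm_num),
        show (6 : ℝ) * (1 / 12) = 2⁻¹ by norm_num, ENNReal.ofReal_inv_of_pos (by norm_num)]
      simp
    rw [e, mul_pow, pow_add]
    push_cast
    apply le_of_eq
    ring
  refine (ENNReal.tsum_le_tsum hn).trans ?_
  rw [ENNReal.tsum_mul_left, ENNReal.tsum_geometric, mul_comm]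
  apply mul_le_mul_left
  rw [ENNReal.one_sub_inv_two, inv_inv]

/-- **Negative answer to Q1.** There is a connected, infinite, 4-regular graph without fortress,
quasi-isometric to the square lattice, such that for every `p ∈ (0, 1/1728]` the 2-neighbour
contamination process started from the Bernoulli configuration of density `p` almost surely does
not invade the graph (`μ_p(I) = 0`). -/
theorem result : ∃ (V : Type) (G : SimpleGraph V),
    Infinite V ∧ G.Connected ∧ (∀ v, (G.neighborSet v).ncard = 4) ∧
    QuasiIsometric G squareLattice ∧ (¬ ∃ S : Set V, IsFortress G S) ∧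
    ∀ p : ℝ, 0 < p → p ≤ 1 / 1728 →
      IsProbabilityMeasure (law V p) ∧ law V p (invasion G) = 0 := by
  refine ⟨Vt, GG, inferInstance, GG_connected, card_nbr, GG_quasi, no_fortress, ?_⟩
  intro p h0 h1
  have hprob := bernoulli_prob h0.le (by linarith : p ≤ 1)
  refine ⟨by unfold law; infer_instance, ?_⟩
  have hsub : ∀ h : ℕ, invasion GG ⊆ {ω : Vt → Bool | Reach ω ((h : ℤ), 0)} := by
    intro h ω hω
    by_contra hcon
    obtain ⟨c, hc, hc'⟩ := exists_path hcon
    obtain ⟨n, hn⟩ := hω (c 0, false, false)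
    rw [stable hc hc' n] at hn
    simp at hn
  have hle : ∀ h : ℕ, law Vt p (invasion GG) ≤ 2 * ENNReal.ofReal (1 / 12) ^ h := fun h =>
    (measure_mono (hsub h)).trans (reach_bound h0.le h1 h)
  have hlim : Filter.Tendsto (fun h : ℕ => (2 : ENNReal) * ENNReal.ofReal (1 / 12) ^ h)
      Filter.atTop (nhds (2 * 0)) := by
    apply ENNReal.Tendsto.const_mul
    · apply ENNReal.tendsto_pow_atTop_nhds_zero_of_lt_one
      rw [← ENNReal.ofReal_one]
      exact (ENNReal.ofReal_lt_ofReal_iff (by norm_num)).2 (by norm_num)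
    · right; simp
  rw [mul_zero] at hlim
  exact le_antisymm (ge_of_tendsto' hlim hle) zero_le

end Pool.Agent.Results.MP_38c1f8_pr.OrientedCells
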